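import Pool.Agent.Q282.HM.Lin

/-!
# The predicted sums for divisors
-/

set_option autoImplicit false
set_option linter.unusedSectionVars false

namespace Q282HN

open Finset MvPolynomial NumberField
open Q282GP (TT cc mid vv oser oc expand)
open Q282MM (gm)
open Q282NA (hs mem_hs finsum_sub)
open Q282HM (MM)

/-- the rank of the classes of divisors -/
def first (w : ℕ → ℕ) (D r ν z : ℕ) : ℕ :=
  if D = 1 then ν + ν.choose 2 else if D = 2 then ν * (z + w (1 + r)) else ν * w 1

lemma coeff_pow (w : ℕ → ℕ) (D r : ℕ) (h0 : oc w D r 0 = 1) (ν : ℕ) :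
    PowerSeries.coeff 0 (oser w D r ^ ν) = 1 ∧ PowerSeries.coeff 1 (oser w D r ^ ν) = 0 ∧
      PowerSeries.coeff 2 (oser w D r ^ ν) = ν * oc w D r 1 := by
  have c0 : PowerSeries.coeff 0 (oser w D r) = 1 := by
    unfold oser
    rw [PowerSeries.coeff_mk, if_pos (by decide), Nat.zero_div, h0]
  have c1 : PowerSeries.coeff 1 (oser w D r) = 0 := by
    unfold oser
    rw [PowerSeries.coeff_mk, if_neg (by decide)]
  have c2 : PowerSeries.coeff 2 (oser w D r) = oc w D r 1 := by
    unfold oser
    rw [PowerSeries.coeff_mk, if_pos (by decide)]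
  induction ν with
  | zero =>
    rw [pow_zero]
    refine ⟨by simp, ?_, ?_⟩
    · rw [PowerSeries.coeff_one, if_neg (by norm_num)]
    · rw [PowerSeries.coeff_one, if_neg (by norm_num), zero_mul]
  | succ ν ih =>
    obtain ⟨i0, i1, i2⟩ := ih
    rw [pow_succ]
    refine ⟨?_, ?_, ?_⟩
    · rw [PowerSeries.coeff_mul]
      have : antidiagonal 0 = {((0 : ℕ), (0 : ℕ))} := rfl
      rw [this, sum_singleton, i0, c0, mul_one]
    · rw [PowerSeries.coeff_mul]
      have : antidiagonal 1 = {((0 : ℕ), (1 : ℕ)), (1, 0)} := rfl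
      rw [this, sum_pair (by decide), i1, c1]
      simp
    · rw [PowerSeries.coeff_mul]
      have : antidiagonal 2 = {((0 : ℕ), (2 : ℕ)), (1, 1), (2, 0)} := rfl
      rw [this, sum_insert (by decide), sum_pair (by decide), i0, i2, c1, c0, c2]
      ring

/-- the sums of the exponents -/
lemma sum_TT (w : ℕ → ℕ) (D r ν i z : ℕ) : ∑ l ∈ range (ν + 1), TT w D r ν i l * z ^ l =
    ∑ k ∈ range (ν + 1), cc w D r ν i k * ∑ j ∈ range (k + 1), k.choose j * gm j * (z + vv w D r) ^ (k - j) := by
  unfold TT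
  simp only [sum_mul]
  rw [sum_comm]
  refine sum_congr rfl fun κ hκ => ?_
  rw [mem_range] at hκ
  have h1 : ∑ l ∈ range (ν + 1), mid (vv w D r) κ l * z ^ l =
      ∑ j ∈ range (κ + 1), κ.choose j * gm j * (z + vv w D r) ^ (κ - j) := by
    have h2 := expand (z : ℝ) (vv w D r) κ ν (by omega)
    exact_mod_cast h2.symm
  rw [← h1, mul_sum]
  exact sum_congr rfl fun l _ => by rw [mul_assoc]

lemma T_zero (w : ℕ → ℕ) (D r ν z : ℕ) (hD : 1 ≤ D) (h0 : w 0 = 1) : ∑ l ∈ range (ν + 1), TT w D r ν 0 l * z ^ l = 1 := by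
  have h1 : oc w D r 0 = 1 := by
    unfold oc
    rw [if_pos (by omega), h0]
  rw [sum_TT, sum_range_succ', sum_eq_zero]
  · unfold cc
    rw [if_pos (by omega)]
    have := (coeff_pow w D r h1 ν).1
    simp only [mul_zero, Nat.sub_zero, Nat.sub_self]
    rw [this]
    simp [gm]
  · intro k _
    unfold cc
    rw [if_neg (by
      have : 1 * 1 ≤ D * (k + 1) := Nat.mul_le_mul hD (by omega)
      omega), mul_zero, zero_mul]

lemma T_one (w : ℕ → ℕ) (D r ν z : ℕ) (hD : 1 ≤ D) (hr : 1 ≤ r) (hν : 1 ≤ ν) (h0 : w 0 = 1) (hw : w (D + r) = 1) (hz : Odd D → z = 0) :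
    ∑ l ∈ range (ν + 1), TT w D r ν 1 l * z ^ l = first w D r ν z := by
  have h1 : oc w D r 0 = 1 := by
    unfold oc
    rw [if_pos (by omega), h0]
  have hg0 : gm 0 = 1 := by decide
  have hg1 : gm 1 = 0 := by decide
  have hg2 : gm 2 = 1 := by decide
  obtain ⟨k0, k1, k2⟩ := coeff_pow w D r h1 ν
  rw [sum_TT]
  by_cases hD1 : D = 1
  · have hz0 : z = 0 := hz (by rw [hD1]; exact odd_one)
    have hv : vv w D r = 0 := by
      unfold vv
      rw [if_neg (by rw [hD1]; decide)]
    have ho : oc w D r 1 = 1 := by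
      unfold oc
      rw [hD1] at hw ⊢
      rw [if_neg (by omega), if_pos (by omega), hw]
    unfold first
    rw [if_pos hD1, hv, hz0]
    -- the terms
    have ht : ∀ k ∈ range (ν + 1), cc w D r ν 1 k * ∑ j ∈ range (k + 1), k.choose j * gm j * (0 + 0) ^ (k - j) =
        (if k = 0 then ν else 0) + (if k = 2 then ν.choose 2 else 0) := by
      intro k hk
      unfold cc
      rw [hD1, one_mul, mul_one]
      match k with
      | 0 =>
        rw [if_pos (by omega), if_pos rfl, if_neg (by omega)]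
        rw [hD1] at k2 ho
        simp only [Nat.sub_zero]
        rw [k2, ho]
        simp [hg0]
      | 1 =>
        rw [if_pos (by omega), if_neg (by omega), if_neg (by omega)]
        have h3 := (coeff_pow w D r h1 (ν - 1)).2.1
        rw [hD1] at h3
        have h4 : 2 - 1 = 1 := rfl
        rw [h4, h3]
        simp
      | 2 =>
        rw [if_pos (by omega), if_neg (by omega), if_pos rfl]
        have h3 := (coeff_pow w D r h1 (ν - 2)).1
        rw [hD1] at h3
        rw [Nat.sub_self, h3]
        have h4 : ∑ j ∈ range (2 + 1), Nat.choose 2 j * gm j * (0 + 0) ^ (2 - j) = 1 := by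
          rw [sum_range_succ, sum_range_succ, sum_range_succ, sum_range_zero, hg0, hg1, hg2]
          norm_num
        rw [h4]
        ring
      | k + 3 =>
        rw [if_neg (by omega), if_neg (by omega), if_neg (by omega)]
        simp
    rw [sum_congr rfl ht, sum_add_distrib, sum_ite_eq' , sum_ite_eq', if_pos (mem_range.2 (by omega))]
    by_cases h2 : 2 ∈ range (ν + 1)
    · rw [if_pos h2]
    · rw [if_neg h2]
      rw [mem_range] at h2
      rw [Nat.choose_eq_zero_of_lt (by omega)]
  · by_cases hD2 : D = 2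
    · have hv : vv w D r = w (1 + r) := by
        unfold vv
        rw [if_pos (by rw [hD2]; decide), hD2]
      have ho : oc w D r 1 = 0 := by
        unfold oc
        rw [hD2, if_neg (by omega), if_neg (by omega)]
      unfold first
      rw [if_neg hD1, if_pos hD2, hv]
      have ht : ∀ k ∈ range (ν + 1), cc w D r ν 1 k * ∑ j ∈ range (k + 1), k.choose j * gm j * (z + w (1 + r)) ^ (k - j) =
          (if k = 1 then ν * (z + w (1 + r)) else 0) := by
        intro k hk
        unfold cc
        match k with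
        | 0 =>
          rw [if_pos (by omega), if_neg (by omega)]
          simp only [Nat.sub_zero, mul_zero, mul_one]
          rw [k2, ho]
          simp
        | 1 =>
          rw [if_pos (by omega), if_pos rfl]
          have h3 := (coeff_pow w D r h1 (ν - 1)).1
          have h4 : 2 * 1 - D * 1 = 0 := by omega
          rw [h4, h3, sum_range_succ, sum_range_succ, sum_range_zero, hg0, hg1]
          simp
        | k + 2 =>
          rw [if_neg (by
            have : 2 * 2 ≤ D * (k + 2) := Nat.mul_le_mul (by omega) (by omega)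
            omega), if_neg (by omega)]
          simp
      rw [sum_congr rfl ht, sum_ite_eq', if_pos (mem_range.2 (by omega))]
    · have ho : oc w D r 1 = w 1 := by
        unfold oc
        rw [if_pos (by omega)]
      unfold first
      rw [if_neg hD1, if_neg hD2]
      have ht : ∀ k ∈ range (ν + 1), cc w D r ν 1 k * ∑ j ∈ range (k + 1), k.choose j * gm j * (z + vv w D r) ^ (k - j) =
          (if k = 0 then ν * w 1 else 0) := by
        intro k hk
        unfold cc
        match k with
        | 0 =>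
          rw [if_pos (by omega), if_pos rfl]
          simp only [Nat.sub_zero, mul_zero, mul_one]
          rw [k2, ho]
          simp [hg0]
        | k + 1 =>
          rw [if_neg (by
            have : 3 * 1 ≤ D * (k + 1) := Nat.mul_le_mul (by omega) (by omega)
            omega), if_neg (by omega)]
          simp
      rw [sum_congr rfl ht, sum_ite_eq', if_pos (mem_range.2 (by omega))]

section

variable {K : Type} [Field K] [NumberField K] {A : Type} [Fintype A] [DecidableEq A] {ι : A → Type} [∀ a, Fintype (ι a)]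
  [∀ a, DecidableEq (ι a)] {n : ℕ}

open Classical in
/-- **The predicted sum in degree two.** -/
theorem MM_two (w : ℕ → ℕ) (D r ν : ℕ) (hD : 1 ≤ D) (hr : 1 ≤ r) (hν : 1 ≤ ν) (h0 : w 0 = 1) (hw : w (D + r) = 1)
    (Δ : MvPolynomial (Σ a, ι a) (𝓞 K)) (z : (p : ℕ) → (𝓞 K →+* ZMod p) → ℕ) (hz : Odd D → ∀ p ψ, z p ψ = 0)
    (y : (p : ℕ) → (𝓞 K →+* ZMod p) → ℕ → ℂ) (p : ℕ) (hp : p.Prime) :
    MM w D r ν 2 Δ z y p = ∑ᶠ ψ : {ψ : 𝓞 K →+* ZMod p // map ψ Δ ≠ 0},
      ((first w D r ν (z p ψ.1) : ℂ) * y p ψ.1 0 + y p ψ.1 2) := by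
  have hF : Fact p.Prime := ⟨hp⟩
  have : Finite (𝓞 K →+* ZMod p) := (Q282GH.card_homs K (ZMod p)).1
  unfold MM
  rw [finsum_sub (hs K p) mem_hs (fun ψ => map ψ Δ ≠ 0) (fun ψ => ((first w D r ν (z p ψ) : ℂ) * y p ψ 0 + y p ψ 2)), dif_pos hp]
  refine sum_congr rfl fun ψ _ => ?_
  have ht0 := T_zero w D r ν (z p ψ) hD h0
  have ht1 := T_one w D r ν (z p ψ) hD hr hν h0 hw (fun h => hz h p ψ)
  by_cases h : map ψ Δ = 0
  · rw [if_neg (not_not.2 h)]
    refine sum_eq_zero fun b _ => ?_
    unfold Q282HM.mt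
    rw [if_pos h, Complex.ofReal_zero, zero_mul]
  · rw [if_pos h]
    have e0 : ((Q282HM.mt w D r ν Δ z p ψ 0 : ℝ) : ℂ) = 1 := by
      unfold Q282HM.mt Q282UV.TE
      rw [if_neg h]
      have : ∑ l ∈ range (ν + 1), ((if Even 0 then TT w D r ν (0 / 2) l else 0 : ℕ) : ℝ) * (z p ψ : ℝ) ^ l =
          ((∑ l ∈ range (ν + 1), TT w D r ν 0 l * (z p ψ) ^ l : ℕ) : ℝ) := by
        push_cast
        exact sum_congr rfl fun l _ => by rw [if_pos (by decide)]
      rw [this, ht0]
      norm_num
    have e1 : ((Q282HM.mt w D r ν Δ z p ψ 1 : ℝ) : ℂ) = 0 := by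
      unfold Q282HM.mt Q282UV.TE
      rw [if_neg h, sum_eq_zero]
      · simp
      · intro l _
        rw [if_neg (by decide)]
        simp
    have e2 : ((Q282HM.mt w D r ν Δ z p ψ 2 : ℝ) : ℂ) = first w D r ν (z p ψ) := by
      unfold Q282HM.mt Q282UV.TE
      rw [if_neg h]
      have : ∑ l ∈ range (ν + 1), ((if Even 2 then TT w D r ν (2 / 2) l else 0 : ℕ) : ℝ) * (z p ψ : ℝ) ^ l =
          ((∑ l ∈ range (ν + 1), TT w D r ν 1 l * (z p ψ) ^ l : ℕ) : ℝ) := by
        push_cast
        exact sum_congr rfl fun l _ => by rw [if_pos (by decide)]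
      rw [this, ht1]
      norm_num
    rw [sum_range_succ, sum_range_succ, sum_range_succ, sum_range_zero, e0, e1, e2]
    norm_num
    ring

end

end Q282HN
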