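import Pool.Agent.Q282.HN.Div

/-!
# Sections of a variety through a scheme, over number fields: all varieties at once
-/

set_option autoImplicit false
set_option linter.unusedSectionVars false

namespace Q282HN

open Finset MvPolynomial NumberField
open Q282RH (tbox)
open Q282GH (zeros Through)
open Q282GP (fam tt)
open Q282NA (Box ncard_box ncard_box' dec)
open Q282HM (YY MM main)

section

variable {K : Type} [Field K] [NumberField K] {κ : Type} [Fintype κ] [DecidableEq κ] (ω : Module.Basis κ ℤ (𝓞 K))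
  {A : Type} [Fintype A] [DecidableEq A] {ι : A → Type} [∀ a, Fintype (ι a)] [∀ a, DecidableEq (ι a)] {n : ℕ}

theorem almost_gen (D : ℕ) (hD : 1 ≤ D) (r : ℕ) (hr : 1 ≤ r) (hA : Fintype.card A = r) (w : ℕ → ℕ) (hw : w (D + r) = 1) (C₀ C₁ : ℝ)
    (ν : ℕ) (hν : 1 ≤ ν) (n' : ℕ) {J : Type} {h : J → MvPolynomial (Fin (n + 1)) (𝓞 K)} {e : J → ℕ} {d : A → ℕ}
    {f : (a : A) → ι a → MvPolynomial (Fin (n + 1)) (𝓞 K)} (hh : ∀ j, (h j).IsHomogeneous (e j))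
    (hd : ∀ j a, e j + 2 * ν ≤ d a + 1) (hf : ∀ a, Through h (d a) (f a)) (E : Set (MvPolynomial (Fin (n + 1)) (𝓞 K)))
    (Δ : MvPolynomial (Σ a, ι a) (𝓞 K)) (z : (p : ℕ) → (𝓞 K →+* ZMod p) → ℕ) (hodd : Odd D → ∀ p ψ, z p ψ = 0)
    (hW : ∀ (p : ℕ) [Fact p.Prime] (ψ : 𝓞 K →+* ZMod p), map ψ Δ ≠ 0 →
      |(zeros ψ E : ℝ) - ∑ j ∈ range (D + r + 1), w j * (p : ℝ) ^ j| ≤ C₀ * Real.sqrt p ^ (2 * r + D - 1))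
    (hz : ∀ (p : ℕ) [Fact p.Prime] (ψ : 𝓞 K →+* ZMod p), map ψ Δ ≠ 0 → (z p ψ : ℝ) ≤ C₁)
    (hZ : ∀ (p : ℕ) [Fact p.Prime] (ψ : 𝓞 K →+* ZMod p), map ψ Δ ≠ 0 →
      |(zeros ψ (E ∪ Set.range h) : ℝ) - z p ψ * Real.sqrt p ^ D| ≤ C₁ * Real.sqrt p ^ D / Real.sqrt p)
    (b₀ : ℕ) (hα : ∀ (p : ℕ) [Fact p.Prime] (ψ : 𝓞 K →+* ZMod p) (u : (Σ a, ι a) → ZMod p), eval₂ ψ u Δ ≠ 0 →
      ∃ α : Multiset ℂ, α.card = b₀ ∧ (∀ a ∈ α, ‖a‖ ≤ Real.sqrt p ^ D) ∧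
      (zeros (eval₂Hom ψ u) (fam E f) : ℂ) = ((tt w D r (p : ℝ) : ℝ) : ℂ) + (-1) ^ D * α.sum) (β : ℝ) (hβ : 0 ≤ β) :
    ∃ C : ℝ, 0 < C ∧ ∀ (k : ℕ), 1 ≤ k → ∀ lam : ℝ, 1 ≤ lam → ∀ (X : ℕ) (m : (Σ a, ι a) × κ → ℤ) (L : (Σ a, ι a) × κ → ℕ),
      (∀ x, C * (X : ℝ) ^ (3 * k) ≤ L x) → ∀ (U : Type) [Fintype U] (y : U → (p : ℕ) → (𝓞 K →+* ZMod p) → ℕ → ℂ),
      (∀ u, ∀ (p : ℕ) [Fact p.Prime] (ψ : 𝓞 K →+* ZMod p), map ψ Δ ≠ 0 → ∀ j ≤ n', ‖y u p ψ j‖ ≤ β) →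
      (Set.ncard {c ∈ Box ω m L | ¬ ∀ u, ∀ X' : ℕ, 2 ≤ X' → X' ≤ X →
        ‖∑ p ∈ Nat.primesLE X', (Real.log p : ℂ) * (YY w D r ν n' E f Δ (y u) p c - MM w D r ν n' Δ z (y u) p)‖ ≤
          C * (lam * (Real.sqrt (k * X') * Real.log X'))} : ℝ) ≤
      Fintype.card U * X * (1 / lam ^ (2 * k)) * Set.ncard (Box ω m L) := by
  classical
  obtain ⟨C, h0, h1⟩ := main ω D hD r hr hA w hw C₀ C₁ ν hν n' hh hd hf E Δ z hodd hW hz hZ b₀ hα β hβ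
  refine ⟨C, h0, fun k hk lam hlam X m L hL U _ y hy => ?_⟩
  rw [ncard_box, ncard_box']
  obtain ⟨P, hP⟩ : ∃ P : ((Σ a, ι a) × κ → ℤ) → Prop, P = fun v => ¬ ∀ u, ∀ X' : ℕ, 2 ≤ X' → X' ≤ X →
        ‖∑ p ∈ Nat.primesLE X', (Real.log p : ℂ) * (YY w D r ν n' E f Δ (y u) p (dec ω v) - MM w D r ν n' Δ z (y u) p)‖ ≤
          C * (lam * (Real.sqrt (k * X') * Real.log X')) := ⟨_, rfl⟩
  have h2 := h1 k hk lam hlam X m L hL U y hy P (fun v hv => by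
    rw [hP] at hv
    push Not at hv
    exact hv)
  have h3 : ({v ∈ (tbox m L : Set ((Σ a, ι a) × κ → ℤ)) | ¬ ∀ u, ∀ X' : ℕ, 2 ≤ X' → X' ≤ X →
        ‖∑ p ∈ Nat.primesLE X', (Real.log p : ℂ) * (YY w D r ν n' E f Δ (y u) p (dec ω v) - MM w D r ν n' Δ z (y u) p)‖ ≤
          C * (lam * (Real.sqrt (k * X') * Real.log X'))} : Set ((Σ a, ι a) × κ → ℤ)) =
      (((tbox m L).filter P : Finset ((Σ a, ι a) × κ → ℤ)) : Set _) := by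
    ext v
    rw [hP, coe_filter]
    rfl
  rw [h3, Set.ncard_coe_finset]
  exact h2

end

end Q282HN
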